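import Pool.Agent.LPR.Stmts

/-!
# Squad LPR, row CLO (helper21, double): l-embedded sets are closed
-/

set_option autoImplicit false

open Set Topology Filter

namespace Pool.Agent.LPR.H21

open Pool.Agent.LSG Pool.Agent.LPR

theorem clo : CloStmt := by
  intro X _ _ A hA
  obtain ⟨φ, -, hφ⟩ := hA
  let _ := TopologicalSpace.metrizableSpaceMetric X
  refine isClosed_of_closure_subset fun x hx => ?_
  by_contra hxA
  have hpos : ∀ a : A, 0 < dist (a : X) x := by
    intro a
    refine dist_pos.2 fun h => hxA ?_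
    rw [← h]
    exact a.2
  let f : C(A, ℝ) := ⟨fun a => (dist (a : X) x)⁻¹,
    (continuous_subtype_val.dist continuous_const).inv₀ fun a => (hpos a).ne'⟩
  have h1 : ∀ᶠ y in 𝓝 x, φ f y < |φ f x| + 1 :=
    (φ f).continuous.continuousAt.eventually
      (gt_mem_nhds ((le_abs_self _).trans_lt (lt_add_one _)))
  obtain ⟨r, hr, hrb⟩ := Metric.eventually_nhds_iff.1 h1
  have hm : 0 < |φ f x| + 1 := by positivity
  obtain ⟨a, haA, ha⟩ := Metric.mem_closure_iff.1 hx (min r (|φ f x| + 1)⁻¹)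
    (lt_min hr (inv_pos.2 hm))
  rw [dist_comm] at ha
  have h2 := hrb (ha.trans_le (min_le_left _ _))
  have h3 : φ f a = (dist a x)⁻¹ := hφ f ⟨a, haA⟩
  have h4 : dist a x < (|φ f x| + 1)⁻¹ := ha.trans_le (min_le_right _ _)
  have h5 : |φ f x| + 1 < (dist a x)⁻¹ := by
    rw [lt_inv_comm₀ hm (hpos ⟨a, haA⟩)]
    exact h4
  rw [h3] at h2
  exact absurd h2 (not_lt.2 h5.le)

end Pool.Agent.LPR.H21
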